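import Mathlib

/-!
# MP_4423d6_an: critical and pathwise critical coupling in the Winfree model

The strong form (Q2) fails for every `N ≥ 2`, and the pathwise critical coupling is not bounded by
a universal multiple of `‖Ω‖_∞`.
-/

set_option autoImplicit false

open Filter Topology Set

namespace Pool.Agent.Results.MP_4423d6_an.StrongFormFails

/-- the right-hand side of the Winfree model -/
noncomputable def field {N : ℕ} (κ : ℝ) (Ω θ : Fin N → ℝ) (i : Fin N) : ℝ :=
  Ω i - κ / N * (∑ j, (1 + Real.cos (θ j))) * Real.sin (θ i)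

/-- `θ` is a solution on `[0, ∞)` with initial phases `Θ₀` -/
def IsSolution {N : ℕ} (κ : ℝ) (Ω Θ₀ : Fin N → ℝ) (θ : ℝ → Fin N → ℝ) : Prop :=
  θ 0 = Θ₀ ∧ ContinuousOn θ (Ici 0) ∧
    ∀ t, 0 < t → ∀ i, HasDerivAt (fun s => θ s i) (field κ Ω (θ t) i) t

/-- there is an equilibrium -/
def HasEquilibrium {N : ℕ} (κ : ℝ) (Ω : Fin N → ℝ) : Prop :=
  ∃ θ : Fin N → ℝ, ∀ i, field κ Ω θ i = 0

/-- the solution from `Θ₀` converges -/
def Converges {N : ℕ} (κ : ℝ) (Ω Θ₀ : Fin N → ℝ) : Prop :=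
  ∀ θ : ℝ → Fin N → ℝ, IsSolution κ Ω Θ₀ θ → ∀ i, ∃ L : ℝ, Tendsto (fun t => θ t i) atTop (𝓝 L)

/-- the critical coupling strength -/
noncomputable def kappaC {N : ℕ} (Ω : Fin N → ℝ) : EReal :=
  sInf ((fun x : ℝ => (x : EReal)) '' {κs : ℝ | 0 < κs ∧ ∀ κ, κs < κ → HasEquilibrium κ Ω})

/-- the pathwise critical coupling strength -/
noncomputable def kappaPC {N : ℕ} (Θ₀ Ω : Fin N → ℝ) : EReal :=
  sInf ((fun x : ℝ => (x : EReal)) '' {κs : ℝ | 0 < κs ∧ ∀ κ, κs < κ → Converges κ Ω Θ₀})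

/-- the frequencies `(1, 0, ..., 0)` -/
def freq (n : ℕ) : Fin (n + 1) → ℝ := fun i => if i = 0 then 1 else 0

/-- the initial phases `(0, π, ..., π)` -/
noncomputable def phase (n : ℕ) : Fin (n + 1) → ℝ := fun i => if i = 0 then 0 else Real.pi

/-! ### Trigonometry -/

lemma trig_le (x : ℝ) : (1 + Real.cos x) * Real.sin x ≤ 3 * √3 / 4 := by
  have h3 : √3 ^ 2 = 3 := Real.sq_sqrt (by norm_num)
  have hs := Real.sin_sq_add_cos_sq x
  apply le_of_sq_le_sq _ (by positivity)
  have e1 : ((1 + Real.cos x) * Real.sin x) ^ 2 = (1 - Real.cos x ^ 2) * (1 + Real.cos x) ^ 2 := by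
    rw [mul_pow, show Real.sin x ^ 2 = 1 - Real.cos x ^ 2 by linarith]; ring
  have e2 : (3 * √3 / 4) ^ 2 = 27 / 16 := by
    rw [div_pow, mul_pow, h3]; norm_num
  rw [e1, e2]
  set c := Real.cos x
  nlinarith [sq_nonneg (c - 1 / 2), sq_nonneg (c + 3 / 2), sq_nonneg ((c - 1 / 2) * (c + 3 / 2)),
    mul_nonneg (sq_nonneg (c - 1 / 2)) (sq_nonneg (c + 3 / 2))]

lemma abs_trig_le (x : ℝ) : |(1 + Real.cos x) * Real.sin x| ≤ 2 := by
  rw [abs_mul]
  have h1 : |1 + Real.cos x| ≤ 2 := by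
    rw [abs_le]; constructor <;> linarith [Real.cos_le_one x, Real.neg_one_le_cos x]
  have h2 := Real.abs_sin_le_one x
  nlinarith [abs_nonneg (1 + Real.cos x), abs_nonneg (Real.sin x)]

/-! ### An autonomous scalar equation with positive right-hand side -/

/-- a global solution of `S' = g (S)`, `S 0 = 0`, which does not converge -/
lemma exists_scalar {g : ℝ → ℝ} (hg : Continuous g) {δ G : ℝ} (hδ : 0 < δ) (h1 : ∀ x, δ ≤ g x)
    (h2 : ∀ x, g x ≤ G) : ∃ S : ℝ → ℝ, S 0 = 0 ∧ (∀ t, HasDerivAt S (g (S t)) t) ∧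
      ¬ ∃ L, Tendsto S atTop (𝓝 L) := by
  have hpos : ∀ x, 0 < g x := fun x => hδ.trans_le (h1 x)
  have hG : 0 < G := (hpos 0).trans_le (h2 0)
  have hc : Continuous fun x => (g x)⁻¹ := hg.inv₀ fun x => (hpos x).ne'
  set T : ℝ → ℝ := fun x => ∫ y in (0 : ℝ)..x, (g y)⁻¹ with hT
  have hd : ∀ x, HasDerivAt T (g x)⁻¹ x := fun x =>
    intervalIntegral.integral_hasDerivAt_right (hc.intervalIntegrable _ _)
      (hc.stronglyMeasurableAtFilter _ _) hc.continuousAt
  have hTc : Continuous T := continuous_iff_continuousAt.2 fun x => (hd x).continuousAt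
  have hmono : StrictMono T := by
    apply strictMono_of_deriv_pos
    intro x
    rw [(hd x).deriv]
    exact inv_pos.2 (hpos x)
  have hT0 : T 0 = 0 := by simp [hT]
  have hmono2 : Monotone fun x => T x - G⁻¹ * x := by
    have hd2 : ∀ x, HasDerivAt (fun x => T x - G⁻¹ * x) ((g x)⁻¹ - G⁻¹ * 1) x := fun x =>
      (hd x).sub ((hasDerivAt_id x).const_mul G⁻¹)
    apply monotone_of_deriv_nonneg
    · intro x
      exact (hd2 x).differentiableAt
    · intro x
      rw [(hd2 x).deriv, mul_one, sub_nonneg]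
      exact inv_anti₀ (hpos x) (h2 x)
  have htop : Tendsto T atTop atTop := by
    apply tendsto_atTop_mono' _ _ (tendsto_id.const_mul_atTop (inv_pos.2 hG))
    filter_upwards [eventually_ge_atTop 0] with x hx
    have := hmono2 hx
    simp only [hT0, mul_zero, sub_zero] at this
    simp only [id]
    linarith
  have hbot : Tendsto T atBot atBot := by
    apply tendsto_atBot_mono' _ _ (tendsto_id.const_mul_atBot (inv_pos.2 hG))
    filter_upwards [eventually_le_atBot 0] with x hx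
    have := hmono2 hx
    simp only [hT0, mul_zero, sub_zero] at this
    simp only [id]
    linarith
  have hsurj : Function.Surjective T := hTc.surjective htop hbot
  set e : ℝ ≃o ℝ := StrictMono.orderIsoOfSurjective T hmono hsurj with he
  have heT : ∀ x, e x = T x := fun x => rfl
  have hS : ∀ t, T (e.symm t) = t := fun t => by rw [← heT, e.apply_symm_apply]
  refine ⟨e.symm, ?_, fun t => ?_, ?_⟩
  · apply hmono.injective
    rw [hS, hT0]
  · have := HasDerivAt.of_local_left_inverse (f := T) (g := e.symm) (a := t)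
      e.symm.continuous.continuousAt (hd (e.symm t)) (inv_ne_zero (hpos _).ne')
      (Eventually.of_forall hS)
    rwa [inv_inv] at this
  · rintro ⟨L, hL⟩
    have h3 : Tendsto (fun t => T (e.symm t)) atTop (𝓝 (T L)) := (hTc.tendsto L).comp hL
    simp only [hS] at h3
    exact not_tendsto_nhds_of_tendsto_atTop tendsto_id _ h3

/-! ### The two thresholds -/

lemma sum_phase (n : ℕ) (x : ℝ) :
    ∑ j : Fin (n + 1), (1 + Real.cos (if j = 0 then x else Real.pi)) = 1 + Real.cos x := by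
  rw [Fin.sum_univ_succ]
  simp [Fin.succ_ne_zero]

lemma exists_not_converging {n : ℕ} {κ : ℝ} (hκ : 0 < κ) (hκ' : κ < 4 * (n + 1) / (3 * √3)) :
    ∃ θ : ℝ → Fin (n + 1) → ℝ, IsSolution κ (freq n) (phase n) θ ∧
      ¬ ∃ L : ℝ, Tendsto (fun t => θ t 0) atTop (𝓝 L) := by
  have h3 : 0 < √3 := by positivity
  have hn : (0 : ℝ) < n + 1 := by positivity
  set a := κ / (n + 1) with ha
  have ha0 : 0 < a := by positivity
  have ha1 : a * (3 * √3 / 4) < 1 := by
    rw [lt_div_iff₀ (by positivity)] at hκ'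
    rw [ha, div_mul_eq_mul_div, div_lt_one hn]
    linarith
  obtain ⟨S, hS0, hS, hlim⟩ := exists_scalar
    (g := fun x => 1 - a * ((1 + Real.cos x) * Real.sin x)) (by fun_prop)
    (δ := 1 - a * (3 * √3 / 4)) (G := 1 + a * 2) (by linarith)
    (fun x => by
      have := mul_le_mul_of_nonneg_left (trig_le x) ha0.le
      linarith)
    (fun x => by
      have := mul_le_mul_of_nonneg_left (abs_le.1 (abs_trig_le x)).1 ha0.le
      linarith)
  refine ⟨fun t i => if i = 0 then S t else Real.pi, ⟨?_, ?_, ?_⟩, ?_⟩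
  · funext i
    simp only [hS0, phase]
  · apply Continuous.continuousOn
    apply continuous_pi
    intro i
    split_ifs
    · exact continuous_iff_continuousAt.2 fun t => (hS t).continuousAt
    · exact continuous_const
  · intro t _ i
    unfold field
    rw [sum_phase]
    by_cases hi : i = 0
    · simp only [hi, if_true, freq]
      refine (hS t).congr_deriv ?_
      rw [ha]
      push_cast
      ring
    · simp only [hi, if_false, freq, Real.sin_pi, mul_zero, sub_zero]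
      exact hasDerivAt_const _ _
  · simpa using hlim

lemma le_kappaPC (n : ℕ) : ((4 * (n + 1) / (3 * √3) : ℝ) : EReal) ≤ kappaPC (phase n) (freq n) := by
  apply le_sInf
  rintro _ ⟨κs, ⟨hκs, h⟩, rfl⟩
  simp only [EReal.coe_le_coe_iff]
  by_contra hlt
  push Not at hlt
  obtain ⟨κ, h1, h2⟩ := exists_between hlt
  obtain ⟨θ, hθ, hlim⟩ := exists_not_converging (hκs.trans h1) h2
  exact hlim (h κ h1 θ hθ 0)

lemma kappaC_le (n : ℕ) : kappaC (freq n) ≤ ((4 / (3 * √3) : ℝ) : EReal) := by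
  apply sInf_le
  refine ⟨_, ⟨by positivity, fun κ hκ => ?_⟩, rfl⟩
  have h3 : 0 < √3 := by positivity
  have h3' : √3 ^ 2 = 3 := Real.sq_sqrt (by norm_num)
  have hn : (0 : ℝ) < n + 1 := by positivity
  have hκ0 : 0 < κ := lt_trans (by positivity) hκ
  rw [div_lt_iff₀ (by positivity)] at hκ
  set f : ℝ → ℝ := fun x => κ / (n + 1) * (1 + Real.cos x + n * 2) * Real.sin x with hf
  have hfc : Continuous f := by fun_prop
  have h0 : f 0 = 0 := by simp [hf]
  have h1 : 1 ≤ f (Real.pi / 3) := by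
    simp only [hf, Real.cos_pi_div_three, Real.sin_pi_div_three]
    rw [div_mul_eq_mul_div, div_mul_eq_mul_div, le_div_iff₀ hn]
    have hn0 : (0 : ℝ) ≤ n := Nat.cast_nonneg n
    nlinarith [mul_pos hκ0 h3, mul_nonneg hn0 (mul_pos hκ0 h3).le]
  obtain ⟨x, _, hx⟩ := intermediate_value_Icc (by positivity : (0 : ℝ) ≤ Real.pi / 3)
    hfc.continuousOn (show (1 : ℝ) ∈ Icc (f 0) (f (Real.pi / 3)) from ⟨by rw [h0]; norm_num, h1⟩)
  refine ⟨fun i => if i = 0 then x else 0, fun i => ?_⟩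
  unfold field
  have hsum : ∑ j : Fin (n + 1), (1 + Real.cos (if j = 0 then x else 0)) =
      1 + Real.cos x + n * 2 := by
    rw [Fin.sum_univ_succ]
    simp [Fin.succ_ne_zero]
    ring
  rw [hsum]
  by_cases hi : i = 0
  · simp only [hi, if_true, freq]
    push_cast
    simp only [hf] at hx
    linarith
  · simp only [hi, if_false, freq, Real.sin_zero, mul_zero, sub_zero]

/-- **The strong form of the conjecture on the Winfree model fails for every `N ≥ 2`.**  For
`N = n + 1`, `Ω = (1, 0, ..., 0)` and `Θ₀ = (0, π, ..., π)` one has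
`κ_c ≤ 4 / (3 √3) < 4 N / (3 √3) ≤ κ_pc`.  In particular no universal constant `c` satisfies
`κ_pc (Θ₀, Ω) ≤ c ‖Ω‖_∞` for all `N`, `Θ₀` and `Ω`. -/
theorem result :
    (∀ n : ℕ, 1 ≤ n → kappaC (freq n) ≤ ((4 / (3 * √3) : ℝ) : EReal) ∧
      ((4 * (n + 1) / (3 * √3) : ℝ) : EReal) ≤ kappaPC (phase n) (freq n) ∧
      kappaC (freq n) ≠ kappaPC (phase n) (freq n)) ∧
    (∀ N : ℕ, 2 ≤ N → ∃ Ω Θ₀ : Fin N → ℝ, kappaC Ω ≠ kappaPC Θ₀ Ω) ∧
    ¬ ∃ c : ℝ, ∀ (N : ℕ) (Ω Θ₀ : Fin N → ℝ), kappaPC Θ₀ Ω ≤ ((c * ‖Ω‖ : ℝ) : EReal) := by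
  have hlt : ∀ n : ℕ, 1 ≤ n → (4 / (3 * √3) : ℝ) < 4 * (n + 1) / (3 * √3) := by
    intro n hn
    have : (1 : ℝ) ≤ n := by exact_mod_cast hn
    apply div_lt_div_of_pos_right _ (by positivity)
    linarith
  have h1 : ∀ n : ℕ, 1 ≤ n → kappaC (freq n) ≠ kappaPC (phase n) (freq n) := by
    intro n hn h
    have h2 := le_kappaPC n
    rw [← h] at h2
    have h3 := h2.trans (kappaC_le n)
    rw [EReal.coe_le_coe_iff] at h3
    linarith [hlt n hn]
  refine ⟨fun n hn => ⟨kappaC_le n, le_kappaPC n, h1 n hn⟩, fun N hN => ?_, ?_⟩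
  · obtain ⟨n, rfl, hn⟩ : ∃ n, N = n + 1 ∧ 1 ≤ n := ⟨N - 1, by omega, by omega⟩
    exact ⟨_, _, h1 n hn⟩
  · rintro ⟨c, hc⟩
    have hnorm : ∀ n, ‖freq n‖ = 1 := by
      intro n
      apply le_antisymm
      · rw [pi_norm_le_iff_of_nonneg (by norm_num)]
        intro i
        unfold freq
        split_ifs <;> simp
      · have := norm_le_pi_norm (freq n) 0
        simpa [freq] using this
    obtain ⟨n, hn⟩ := exists_nat_gt (c * (3 * √3))
    have h2 := (le_kappaPC n).trans (hc (n + 1) (freq n) (phase n))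
    rw [hnorm, mul_one, EReal.coe_le_coe_iff, div_le_iff₀ (by positivity)] at h2
    have : (0 : ℝ) ≤ n := Nat.cast_nonneg n
    linarith

end Pool.Agent.Results.MP_4423d6_an.StrongFormFails
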